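import Mathlib
import Pool.Agent.W926.PS.Asym
import Pool.Agent.W926.PS.Cnt
import Pool.Agent.W121.PS.Lev
import Pool.Agent.W405.PS.B
import Pool.Agent.W435.PS.Sig
import Pool.Agent.W405.PS.Pair
import Pool.Agent.W154.PS.Reg
import Pool.Agent.W214.PS.Rank
import Pool.Agent.W121.PS.Numl
import Pool.Agent.W435.PS.Core
import Pool.Agent.W563.PS.Ram
import Pool.Agent.W156.PS.Low
import Pool.Agent.W554.PS.Gl
import Pool.Agent.W978.PS.Wt
import Pool.Agent.W405.PS.Univ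
import Pool.Agent.W368.PS.Rich
import Pool.Agent.W563.PS.Numu
import Pool.Agent.W177.PS.UP
import Pool.Agent.W168.PS.SRT
import Pool.Agent.W137.PS.Umin
import Pool.Agent.W397.PS.Col
import Pool.Agent.W654.PS.Eight
import Pool.Agent.W247.PS.IA
import Pool.Agent.W392.PS.IB
import Pool.Agent.W571.PS.IX
import Pool.Agent.W571.PS.IIB
import Pool.Agent.W999.PS.IIX
import Pool.Agent.W138.PS.Seq
import Pool.Agent.W515.PS.Conv
import Pool.Agent.W532.PS.L20
import Pool.Agent.W435.PS.Labn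
import Pool.Agent.W435.PS.Typ
import Pool.Agent.W435.PS.Iia
import Pool.Agent.W436.PS.Cls

/-!
`f_6(n,21)` lies strictly between `√(log n)` and `log n`, so the four regimes do not cover all
pairs `(k,t)`.
-/

namespace Pool.Agent.Results.MP_e58d4b_co.StrictlyBetween

open Finset Filter Asymptotics

/-- The ordering of `X` induced by the permutation `ρ` (viewed as the linear order
`x <_ρ y ↔ ρ x < ρ y`), as a relation on `X`. -/
def inducedOrder {n : ℕ} (ρ : Equiv.Perm (Fin n)) (X : Finset (Fin n)) : X → X → Prop :=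
  fun x y => ρ x < ρ y

/-- The family `P` `t`-shatters `X`: its members induce at least `t` distinct orderings of `X`. -/
def Shatters {n : ℕ} (t : ℕ) (P : Finset (Equiv.Perm (Fin n))) (X : Finset (Fin n)) : Prop :=
  t ≤ ((fun ρ : Equiv.Perm (Fin n) => inducedOrder ρ X) '' (P : Set (Equiv.Perm (Fin n)))).ncard

/-- `f k n t` is the minimum size of a family of permutations of `[n]` that `t`-shatters every
`k`-element subset. -/
noncomputable def f (k n t : ℕ) : ℕ :=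
  sInf {s | ∃ P : Finset (Equiv.Perm (Fin n)), P.card = s ∧
    ∀ X : Finset (Fin n), X.card = k → Shatters t P X}

lemma hLow : W926.PS.S_LOW :=
  Pool.Agent.W156.PSLow.low
    (W435.PS.core Pool.Agent.W121.PS.lev Pool.Agent.W405.PS.sb
      (W435.PS.sig Pool.Agent.W405.PS.sb) Pool.Agent.W405.PS.pair Pool.Agent.W154.PS.reg
      Pool.Agent.W214.PS.rank Pool.Agent.W121.PS.numl)
    Pool.Agent.W563.PS.Ram.ram Pool.Agent.W532.PS.l20

lemma hCnt : W926.PS.S_CNT :=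
  W926.PS.cnt (Pool.Agent.W168.PS.srt Pool.Agent.W554.PS.gl) Pool.Agent.W138.PS.seq W137.PS.umin
    (Pool.Agent.W397.PS.col W137.PS.umin) W435.PS.labn W654.PS.eight W435.PS.typ
    Pool.Agent.W247.PS.ia (Pool.Agent.W392.PS.ib W654.PS.eight W435.PS.typ)
    Pool.Agent.W571.PS.ix W435.PS.iia (Pool.Agent.W571.PS.iib W654.PS.eight W435.PS.typ)
    W999.PS.iix
    (W436.PS.cls Pool.Agent.W138.PS.seq W137.PS.umin (Pool.Agent.W397.PS.col W137.PS.umin))

lemma hUp : W926.PS.S_UP :=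
  Pool.Agent.W177.PS.up
    (W368.PS.rich Pool.Agent.W554.PS.gl Pool.Agent.W978.PS.wt Pool.Agent.W405.PS.univ_fam)
    Pool.Agent.W563.PS.Numu.numu hCnt Pool.Agent.W214.PS.rank

theorem result :
    -- (1) `f_6(n,21) / √(log n) → ∞`
    (∀ C : ℝ, ∃ n₀ : ℕ, ∀ n ≥ n₀, C * √(Real.log n) ≤ (f 6 n 21 : ℝ)) ∧
    -- (2) `f_6(n,21) / log n → 0`
    (∀ ε : ℝ, 0 < ε → ∃ n₀ : ℕ, ∀ n ≥ n₀, (f 6 n 21 : ℝ) ≤ ε * Real.log n) ∧
    -- (3) the answer to Q1 is negative
    ¬ (∀ k t : ℕ, 1 ≤ k → 1 ≤ t → t ≤ k.factorial →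
      ((fun n : ℕ => (f k n t : ℝ)) =Θ[atTop] (fun _ : ℕ => (1 : ℝ)) ∨
       (fun n : ℕ => (f k n t : ℝ)) =Θ[atTop] (fun n : ℕ => Real.log (Real.log n)) ∨
       (fun n : ℕ => (f k n t : ℝ)) =Θ[atTop] (fun n : ℕ => √(Real.log n)) ∨
       (fun n : ℕ => (f k n t : ℝ)) =Θ[atTop] (fun n : ℕ => Real.log n))) := by
  have h1 : ∀ C : ℝ, ∃ n₀ : ℕ, ∀ n ≥ n₀, C * √(Real.log n) ≤ (f 6 n 21 : ℝ) :=
    W926.PS.lower hLow hUp Pool.Agent.W515.PS.Conv.conv
  have h2 : ∀ ε : ℝ, 0 < ε → ∃ n₀ : ℕ, ∀ n ≥ n₀, (f 6 n 21 : ℝ) ≤ ε * Real.log n :=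
    W926.PS.upper hUp Pool.Agent.W515.PS.Conv.conv
  refine ⟨h1, h2, fun h => ?_⟩
  obtain ⟨g1, g2, g3, g4⟩ := W926.PS.four h1 h2
  rcases h 6 21 (by norm_num) (by norm_num) (by norm_num [Nat.factorial]) with h' | h' | h' | h'
  · exact g1 h'
  · exact g2 h'
  · exact g3 h'
  · exact g4 h'

end Pool.Agent.Results.MP_e58d4b_co.StrictlyBetween
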